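import Pool.Agent.Q250.NP.Prime

/-!
# Narrow progressions for two classes: a prime linear form in a dyadic window and rough polynomial values
-/

set_option autoImplicit false

namespace Pool.Agent.Q250.NP

open Finset Filter Polynomial
open Pool.Agent.Q253.Line (W NFD W_lower)

/-- the number of prime factors of a value -/
noncomputable def Om (y : ℤ) : ℕ := y.natAbs.primeFactorsList.length

/-- bounds for the number of prime factors of a nonzero value without small prime factors -/
theorem Om_bounds {n t m : ℕ} (hn : 2 ≤ n) (ht : 1 ≤ t) {y : ℤ} (hy2 : 2 ≤ y.natAbs) (hym : y.natAbs ≤ n ^ m)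
    (h : ∀ p : ℕ, p.Prime → (p : ℤ) ∣ y → (n : ℝ) ^ (1 / (t : ℝ)) < p) : 1 ≤ Om y ∧ Om y ≤ t * m := by
  have ht0 : (0 : ℝ) < t := by exact_mod_cast ht
  have hnr : (2 : ℝ) ≤ n := by exact_mod_cast hn
  have hz1 : (1 : ℝ) < (n : ℝ) ^ (1 / (t : ℝ)) := Real.one_lt_rpow (by linarith) (by positivity)
  have hzt : ((n : ℝ) ^ (1 / (t : ℝ))) ^ t = n := by
    rw [← Real.rpow_natCast, ← Real.rpow_mul (by positivity), one_div_mul_cancel ht0.ne', Real.rpow_one]
  unfold Om
  constructor
  · by_contra hcon
    have h4 : y.natAbs.primeFactorsList = [] := List.length_eq_zero_iff.1 (by omega)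
    rw [Nat.primeFactorsList_eq_nil] at h4
    omega
  · apply length_le (by omega) t m hz1 (by rw [hzt]) (by linarith) ?_ ?_
    · exact_mod_cast hym
    · intro p hp hpd
      exact h p hp (Int.natCast_dvd.2 hpd)

end Pool.Agent.Q250.NP
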