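import Pool.Agent.Q253.Thin.Int
import Pool.Agent.Q253.Cov.APd
import Pool.Agent.Q253.Cov.Pig

/-!
# Narrow progressions in sifted sets: dense subsets and colour types
-/

set_option autoImplicit false

namespace Pool.Agent.Q250.NP

open Finset Filter
open Pool.Agent.Q253.Thin (SysZ IS VZ_nonneg VZ_low int_lower)
open Pool.Agent.Q253.Cov (ap_dense pigeon)
open Pool.Agent.Y843.HS (VV)

/-- the count and the progressions in the dense subsets -/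
theorem dense (r : ℕ) (hr : 1 ≤ r) : ∃ t : ℕ, 1 ≤ t ∧ ∃ c : ℝ, 0 < c ∧
    (∀ θ : ℝ, 0 < θ → ∃ X₀ : ℕ, ∀ X : ℕ, X₀ ≤ X → ∀ Z : ℕ → Finset ℕ, SysZ r Z → ∀ u v : ℕ, θ * X ≤ (v : ℝ) - u →
      c * (((v : ℝ) - u) * VV Z 0 X) ≤ ((IS t X u v Z).card : ℝ)) ∧
    (∀ (L : ℕ) (θ δ : ℝ), 0 < θ → 0 < δ → ∃ D X₀ : ℕ, ∀ X : ℕ, X₀ ≤ X → ∀ Z : ℕ → Finset ℕ, SysZ r Z → ∀ u v : ℕ,
      v ≤ u + X → θ * X ≤ (v : ℝ) - u → ∀ S ⊆ IS t X u v Z, δ * ((IS t X u v Z).card : ℝ) ≤ S.card →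
        ∃ a d : ℕ, 1 ≤ d ∧ (d : ℝ) ≤ Real.log X ^ D ∧ ∀ j < L, a + j * d ∈ S) := by
  classical
  obtain ⟨t, ht, c, hc, h⟩ := int_lower r hr
  refine ⟨t, ht, c, hc, h, ?_⟩
  intro L θ δ hθ hδ
  have ht0 : (0 : ℝ) < t := by exact_mod_cast ht
  have ht1 : (1 : ℝ) ≤ t := by exact_mod_cast ht
  obtain ⟨D, X₁, hD⟩ := ap_dense L r (1 / (t : ℝ)) (δ * (c * θ)) (by positivity) (by
    rw [div_le_one ht0]
    exact ht1) (by positivity)
  obtain ⟨X₂, hX₂⟩ := h θ hθ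
  refine ⟨D, max X₁ X₂, ?_⟩
  intro X hX Z hZ u v huv hθv S hS hSc
  have hV := VZ_nonneg hZ 0 X
  have h1 := hX₂ X ((le_max_right _ _).trans hX) Z hZ u v hθv
  have hsub : ∀ n ∈ S, n ∈ Ioc u v ∧ ∀ q : ℕ, q.Prime → (q : ℝ) ≤ (X : ℝ) ^ (1 / (t : ℝ)) → n % q ∉ Z q := by
    intro n hn
    have := hS hn
    unfold IS at this
    rw [mem_filter] at this
    exact this
  refine hD X ((le_max_left _ _).trans hX) Z hZ u S ?_ (fun n hn => (hsub n hn).2) ?_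
  · intro n hn
    have := (hsub n hn).1
    rw [mem_Ioc] at this ⊢
    exact ⟨this.1, this.2.trans huv⟩
  · calc δ * (c * θ) * (X * VV Z 0 X) = δ * (c * ((θ * X) * VV Z 0 X)) := by ring
      _ ≤ δ * (c * (((v : ℝ) - u) * VV Z 0 X)) := by
          apply mul_le_mul_of_nonneg_left _ hδ.le
          apply mul_le_mul_of_nonneg_left _ hc.le
          exact mul_le_mul_of_nonneg_right hθv hV
      _ ≤ δ * ((IS t X u v Z).card : ℝ) := mul_le_mul_of_nonneg_left h1 hδ.le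
      _ ≤ _ := hSc

/-- progressions of constant type: `Kt` bounds the number of the types -/
theorem types (r : ℕ) (hr : 1 ≤ r) : ∃ t : ℕ, 1 ≤ t ∧ ∃ c : ℝ, 0 < c ∧
    (∀ θ : ℝ, 0 < θ → ∃ X₀ : ℕ, ∀ X : ℕ, X₀ ≤ X → ∀ Z : ℕ → Finset ℕ, SysZ r Z → ∀ u v : ℕ, θ * X ≤ (v : ℝ) - u →
      c * (((v : ℝ) - u) * VV Z 0 X) ≤ ((IS t X u v Z).card : ℝ)) ∧
    (∀ (L : ℕ) (θ δ : ℝ), 0 < θ → 0 < δ → ∃ D X₀ : ℕ, ∀ X : ℕ, X₀ ≤ X → ∀ Z : ℕ → Finset ℕ, SysZ r Z → ∀ u v : ℕ,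
      v ≤ u + X → θ * X ≤ (v : ℝ) - u → ∀ S ⊆ IS t X u v Z, δ * ((IS t X u v Z).card : ℝ) ≤ S.card →
        ∃ a d : ℕ, 1 ≤ d ∧ (d : ℝ) ≤ Real.log X ^ D ∧ ∀ j < L, a + j * d ∈ S) ∧
    (∀ (L Kt : ℕ) (θ : ℝ), 0 < θ → ∃ D X₀ : ℕ, ∀ X : ℕ, X₀ ≤ X → ∀ Z : ℕ → Finset ℕ, SysZ r Z → ∀ u v : ℕ,
      v ≤ u + X → θ * X ≤ (v : ℝ) - u → ∀ (γ : Type) (K : Finset γ) (τ : ℕ → γ), K.card ≤ Kt → K.Nonempty →
        (∀ n ∈ IS t X u v Z, τ n ∈ K) →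
        ∃ k ∈ K, ∃ a d : ℕ, 1 ≤ d ∧ (d : ℝ) ≤ Real.log X ^ D ∧ ∀ j < L, a + j * d ∈ IS t X u v Z ∧ τ (a + j * d) = k) := by
  classical
  obtain ⟨t, ht, c, hc, h1, h2⟩ := dense r hr
  refine ⟨t, ht, c, hc, h1, h2, ?_⟩
  intro L Kt θ hθ
  obtain ⟨D, X₀, h3⟩ := h2 L θ (1 / ((Kt : ℝ) + 1)) hθ (by positivity)
  refine ⟨D, X₀, ?_⟩
  intro X hX Z hZ u v huv hθv γ K τ hKt hK hτ
  obtain ⟨k, hk, hkc⟩ := pigeon (IS t X u v Z) K τ hτ hK
  have hK0 : (0 : ℝ) < K.card := by exact_mod_cast hK.card_pos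
  have hKr : (K.card : ℝ) ≤ Kt := by exact_mod_cast hKt
  obtain ⟨a, d, hd1, hd2, h4⟩ := h3 X hX Z hZ u v huv hθv ((IS t X u v Z).filter (fun n => τ n = k)) (filter_subset _ _) (by
    refine le_trans ?_ hkc
    apply mul_le_mul_of_nonneg_right _ (Nat.cast_nonneg _)
    apply one_div_le_one_div_of_le hK0
    linarith)
  exact ⟨k, hk, a, d, hd1, hd2, fun j hj => by
    have := h4 j hj
    rw [mem_filter] at this
    exact this⟩

/-- the number of prime factors of a number whose prime factors are all large -/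
theorem length_le {n : ℕ} (hn : n ≠ 0) {z X : ℝ} (t m : ℕ) (hz : 1 < z) (hzt : X ≤ z ^ t) (hX : 0 ≤ X) (hnX : (n : ℝ) ≤ X ^ m)
    (h : ∀ p : ℕ, p.Prime → p ∣ n → z < p) : n.primeFactorsList.length ≤ t * m := by
  have h1 : z ^ n.primeFactorsList.length ≤ n := by
    have h2 : ∀ l : List ℕ, (∀ p ∈ l, z < p) → z ^ l.length ≤ ((l.prod : ℕ) : ℝ) := by
      intro l
      induction l with
      | nil => intro _; simp
      | cons a l ih =>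
        intro hl
        have h3 := ih (fun p hp => hl p (List.mem_cons_of_mem _ hp))
        have h4 := hl a (List.mem_cons_self)
        have h5 : (0 : ℝ) ≤ z ^ l.length := by positivity
        have h6 : (0 : ℝ) ≤ (a : ℝ) := Nat.cast_nonneg a
        calc z ^ (a :: l).length = z * z ^ l.length := by rw [List.length_cons, pow_succ, mul_comm]
          _ ≤ (a : ℝ) * ((l.prod : ℕ) : ℝ) := mul_le_mul h4.le h3 h5 h6
          _ = (((a :: l).prod : ℕ) : ℝ) := by rw [List.prod_cons]; push_cast; ring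
    have h3 := h2 n.primeFactorsList (fun p hp => h p (Nat.prime_of_mem_primeFactorsList hp) (Nat.dvd_of_mem_primeFactorsList hp))
    rwa [Nat.prod_primeFactorsList hn] at h3
  by_contra hcon
  push Not at hcon
  have h4 : z ^ (t * m + 1) ≤ z ^ n.primeFactorsList.length := pow_le_pow_right₀ hz.le hcon
  have h5 : X ^ m ≤ z ^ (t * m) := by
    rw [pow_mul]
    exact pow_le_pow_left₀ hX hzt m
  have h6 : z ^ (t * m) < z ^ (t * m + 1) := pow_lt_pow_right₀ hz (by omega)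
  linarith

end Pool.Agent.Q250.NP
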