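import Pool.Agent.Q250.NP.Row

/-!
# The version for functions on the naturals
-/

set_option autoImplicit false

namespace Pool.Agent.Q250.NP

open Finset Filter Polynomial
open Pool.Agent.Q253.Line (W NFD rt pr W_lower)

open Classical in
/-- the `n < y < 2 n` with `l y` prime and all prime factors of all `f i y` larger than `n ^ (1/t)` -/
noncomputable def T {m : ℕ} (l : ℕ → ℕ) (f : Fin m → ℕ → ℕ) (t n : ℕ) : Finset ℕ :=
  (Ioo n (2 * n)).filter (fun y : ℕ => (l y).Prime ∧ ∀ i, ∀ p : ℕ, p.Prime → p ∣ f i y → (n : ℝ) ^ (1 / (t : ℝ)) < p)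

/-- the data: the polynomials `G i` have the values `f i`, the linear form has the values `l` -/
structure Rep {m : ℕ} (κ M n : ℕ) (α β : ℤ) (l : ℕ → ℕ) (f : Fin m → ℕ → ℕ) (G : Fin m → ℤ[X]) : Prop where
  deg : (∏ i, G i).natDegree ≤ κ
  nfd : NFD ((C α * X + C β) * ∏ i, G i)
  lin : ∀ y : ℕ, n < y → y < 2 * n → (α * (y : ℤ) + β).natAbs = l y ∧ n < l y
  val : ∀ y : ℕ, n < y → y < 2 * n → ∀ i, ((G i).eval (y : ℤ)).natAbs = f i y
  size : ∀ y : ℕ, n < y → y < 2 * n → ∀ i, 2 ≤ f i y ∧ f i y ≤ n ^ M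

theorem GW_eq {m κ M n : ℕ} {α β : ℤ} {l : ℕ → ℕ} {f : Fin m → ℕ → ℕ} {G : Fin m → ℤ[X]} (h : Rep κ M n α β l f G) {t : ℕ}
    (ht : 1 ≤ t) (hn : 1 ≤ n) : GW t n α β (∏ i, G i) = T l f t n := by
  classical
  ext y
  rw [mem_GW]
  unfold T
  rw [mem_filter, mem_Ioo]
  constructor
  · rintro ⟨⟨h1, h2⟩, h3, h4, h5⟩
    rw [(h.lin y h1 h2).1] at h3
    refine ⟨⟨h1, h2⟩, h3, fun i p hp hpd => h5 p hp ?_⟩
    rw [eval_prod]
    refine Dvd.dvd.trans ?_ (dvd_prod_of_mem _ (mem_univ i))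
    rw [Int.natCast_dvd, h.val y h1 h2 i]
    exact hpd
  · rintro ⟨⟨h1, h2⟩, h3, h4⟩
    obtain ⟨g1, g2⟩ := h.lin y h1 h2
    refine ⟨⟨h1, h2⟩, by rw [g1]; exact h3, ?_, fun p hp hpd => ?_⟩
    · rw [g1]
      have h5 : (n : ℝ) ^ (1 / (t : ℝ)) ≤ n := by
        have hnr : (1 : ℝ) ≤ n := by exact_mod_cast hn
        calc (n : ℝ) ^ (1 / (t : ℝ)) ≤ (n : ℝ) ^ (1 : ℝ) := by
              apply Real.rpow_le_rpow_of_exponent_le hnr
              rw [div_le_one (by exact_mod_cast ht)]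
              exact_mod_cast ht
          _ = n := Real.rpow_one _
      have h6 : (n : ℝ) < l y := by exact_mod_cast g2
      linarith
    · rw [eval_prod] at hpd
      obtain ⟨i, _, hi⟩ := (Prime.dvd_finset_prod_iff (Nat.prime_iff_prime_int.1 hp) _).1 hpd
      rw [Int.natCast_dvd, h.val y h1 h2 i] at hi
      exact h4 i p hp hi

/-- the general statement for the naturals; everything may depend on `n` except the linear form -/
theorem natRow (m κ M : ℕ) : ∃ t : ℕ, 1 ≤ t ∧ ∀ (α β : ℤ), α ≠ 0 → ∃ c : ℝ, 0 < c ∧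
    (∃ N : ℕ, ∀ n : ℕ, N ≤ n → ∀ l (f : Fin m → ℕ → ℕ) G, Rep κ M n α β l f G →
      c / Real.log n ^ (κ + 1) ≤ W ((C α * X + C β) * ∏ i, G i) n ∧
      c * (n * W ((C α * X + C β) * ∏ i, G i) n) ≤ ((T l f t n).card : ℝ)) ∧
    (∀ (L : ℕ) (δ : ℝ), 0 < δ → ∃ D N : ℕ, ∀ n : ℕ, N ≤ n → ∀ l (f : Fin m → ℕ → ℕ) G, Rep κ M n α β l f G →
      ∀ S ⊆ T l f t n, δ * ((T l f t n).card : ℝ) ≤ S.card →
        ∃ x d : ℕ, 1 ≤ d ∧ (d : ℝ) ≤ Real.log n ^ D ∧ ∀ j < L, x + j * d ∈ S) ∧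
    (∀ (L q : ℕ), 1 ≤ q → ∃ D N : ℕ, ∀ n : ℕ, N ≤ n → ∀ l (f : Fin m → ℕ → ℕ) G, Rep κ M n α β l f G →
      ∀ col : ℕ → Fin q, ∃ (s : Fin m → ℕ) (b : Fin q) (x d : ℕ), (∀ i, 1 ≤ s i ∧ s i ≤ t * M) ∧
        1 ≤ d ∧ (d : ℝ) ≤ Real.log n ^ D ∧ ∀ j < L, x + j * d ∈ T l f t n ∧ col (x + j * d) = b ∧
          ∀ i, (f i (x + j * d)).primeFactorsList.length = s i) := by
  classical
  obtain ⟨t, ht, H⟩ := rowU m κ M
  refine ⟨t, ht, fun α β hα => ?_⟩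
  obtain ⟨c, hc, ⟨N1, h1⟩, h2, h3⟩ := H α β hα
  refine ⟨c, hc, ⟨max N1 1, fun n hn l f G hR => ?_⟩, fun L δ hδ => ?_, fun L q hq => ?_⟩
  · rw [← GW_eq hR ht ((le_max_right _ _).trans hn)]
    exact h1 n ((le_max_left _ _).trans hn) G hR.deg hR.nfd
  · obtain ⟨D, N, h4⟩ := h2 L δ hδ
    refine ⟨D, max N 1, fun n hn l f G hR S hS hSc => ?_⟩
    rw [← GW_eq hR ht ((le_max_right _ _).trans hn)] at hS hSc
    exact h4 n ((le_max_left _ _).trans hn) G hR.deg hR.nfd S hS hSc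
  · obtain ⟨D, N, h4⟩ := h3 (L + 1) q hq
    refine ⟨D, max N 1, fun n hn l f G hR col => ?_⟩
    have e := GW_eq hR ht ((le_max_right _ _).trans hn)
    obtain ⟨s, b, x, d, hs, hd1, hd2, h5⟩ := h4 n ((le_max_left _ _).trans hn) G hR.deg hR.nfd (by
      intro y hy i
      have h6 := (mem_GW.1 hy).1
      rw [hR.val y h6.1 h6.2 i]
      exact hR.size y h6.1 h6.2 i) col
    refine ⟨s, b, x, d, hs, hd1, hd2, fun j hj => ?_⟩
    obtain ⟨h6, h7, h8⟩ := h5 j (by omega)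
    refine ⟨by rw [← e]; exact h6, h7, fun i => ?_⟩
    have h9 := (mem_GW.1 h6).1
    rw [← hR.val (x + j * d) h9.1 h9.2 i]
    exact h8 i

end Pool.Agent.Q250.NP
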