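import Pool.Agent.Q253.Line.PrimeD
import Pool.Agent.Q253.Cov.APd
import Pool.Agent.Q253.Cov.Pig
import Pool.Agent.Q250.NP.Core

/-!
# Narrow progressions of the arguments `x < n` with `(a - b) x + b n + c` prime and all values of `G` rough
-/

set_option autoImplicit false

namespace Pool.Agent.Q250.NP

open Finset Filter Polynomial
open Pool.Agent.Q253.Thin (SysZ)
open Pool.Agent.Q253.Cov (ap_dense pigeon)
open Pool.Agent.Q253.Line (W NFD rt pr mem_pr rt_le rt_lt lowerB dvd_eval_emod W_lower)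
open Pool.Agent.Y843.HS (VV Pr)

/-- the roots modulo `p` -/
def Rt (F : ℤ[X]) (p : ℕ) : Finset ℕ := (range p).filter (fun x : ℕ => (p : ℤ) ∣ F.eval (x : ℤ))

theorem mem_Rt {F : ℤ[X]} {p : ℕ} (hp : 0 < p) (n : ℕ) : n % p ∈ Rt F p ↔ (p : ℤ) ∣ F.eval (n : ℤ) := by
  unfold Rt
  rw [mem_filter, mem_range, dvd_eval_emod F p (n : ℤ)]
  push_cast
  constructor
  · exact fun h => h.2
  · exact fun h => ⟨Nat.mod_lt _ hp, h⟩

theorem sys_Rt {F : ℤ[X]} (h : NFD F) {r : ℕ} (hr : F.natDegree ≤ r) : SysZ r (Rt F) := by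
  constructor
  · intro p hp
    exact (rt_le hp (h p hp)).trans hr
  · intro p hp
    exact rt_lt hp (h p hp)
  · intro p _ c hc
    unfold Rt at hc
    rw [mem_filter, mem_range] at hc
    exact hc.1

theorem VV_Rt (F : ℤ[X]) (n : ℕ) : VV (Rt F) 0 n = W F n := by
  unfold VV W
  apply prod_congr
  · ext p
    unfold Pr pr
    rw [mem_filter, mem_filter, mem_Ioc, mem_Icc]
    constructor
    · rintro ⟨⟨h1, h2⟩, h3⟩
      exact ⟨⟨h1, h2⟩, h3⟩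
    · rintro ⟨⟨h1, h2⟩, h3⟩
      exact ⟨⟨h1, h2⟩, h3⟩
  · intro p _
    rfl

open Classical in
/-- the `0 < x < n` for which `|A x + B|` is a prime `> n ^ (1/t)` and all prime factors of `G(x)` are `> n ^ (1/t)` -/
noncomputable def GP (t n : ℕ) (A B : ℤ) (G : ℤ[X]) : Finset ℕ :=
  (Ioo 0 n).filter (fun x : ℕ => (A * (x : ℤ) + B).natAbs.Prime ∧ (n : ℝ) ^ (1 / (t : ℝ)) < ((A * (x : ℤ) + B).natAbs : ℝ) ∧
    ∀ p : ℕ, p.Prime → (p : ℤ) ∣ G.eval (x : ℤ) → (n : ℝ) ^ (1 / (t : ℝ)) < p)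

theorem gp_count : ∀ κ : ℕ, ∃ t : ℕ, 1 ≤ t ∧ ∀ (a b c : ℤ), a ≠ b → ∃ c0 : ℝ, 0 < c0 ∧ ∃ N : ℕ, ∀ n : ℕ, N ≤ n →
    ∀ G : ℤ[X], G.natDegree ≤ κ → NFD ((C (a - b) * X + C (b * n + c)) * G) →
    c0 * (n * W ((C (a - b) * X + C (b * n + c)) * G) n) ≤ ((GP t n (a - b) (b * n + c) G).card : ℝ) := by
  classical
  obtain ⟨K, hK, H⟩ := lowerB
  intro κ
  have ht : 1 ≤ K * (κ + 1) := Nat.mul_pos hK (by omega)
  obtain ⟨t, htd⟩ : ∃ t, t = K * (κ + 1) := ⟨_, rfl⟩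
  rw [← htd] at ht
  have ht0 : (0 : ℝ) < t := by exact_mod_cast ht
  refine ⟨t, ht, fun a b c hab => ?_⟩
  obtain ⟨c0, hc0, N, hN⟩ := H κ a b c hab (1 / (2 * t)) (by positivity)
  have ev1 : ∀ᶠ n : ℕ in atTop, (4 : ℝ) ≤ (n : ℝ) ^ (1 / (t : ℝ)) :=
    ((tendsto_rpow_atTop (by positivity)).comp tendsto_natCast_atTop_atTop).eventually_ge_atTop _
  obtain ⟨N1, hN1⟩ := eventually_atTop.1 ev1
  refine ⟨c0, hc0, max (max N N1) 2, fun n hn G hG hF => ?_⟩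
  have e1 := hN1 n (((le_max_right _ _).trans (le_max_left _ _)).trans hn)
  have hn2 : 2 ≤ n := (le_max_right _ _).trans hn
  have hnr : (2 : ℝ) ≤ n := by exact_mod_cast hn2
  have hn0 : (0 : ℝ) < n := by linarith
  obtain ⟨z, hz⟩ : ∃ z, z = ⌊(n : ℝ) ^ (1 / (t : ℝ))⌋₊ := ⟨_, rfl⟩
  have hzle : (z : ℝ) ≤ (n : ℝ) ^ (1 / (t : ℝ)) := by rw [hz]; exact Nat.floor_le (by positivity)
  have hzlt : (n : ℝ) ^ (1 / (t : ℝ)) < z + 1 := by rw [hz]; exact Nat.lt_floor_add_one _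
  have hz3 : (3 : ℝ) < z := by linarith
  have hz2 : 2 ≤ z := by
    have : (2 : ℝ) ≤ z := by linarith
    exact_mod_cast this
  have hzt : z ^ (K * (κ + 1)) ≤ n := by
    rw [← htd]
    have h1 : (z : ℝ) ^ t ≤ n := by
      calc (z : ℝ) ^ t ≤ ((n : ℝ) ^ (1 / (t : ℝ))) ^ t := pow_le_pow_left₀ (by positivity) hzle t
        _ = n := by rw [← Real.rpow_natCast, ← Real.rpow_mul hn0.le, one_div_mul_cancel ht0.ne', Real.rpow_one]
    exact_mod_cast h1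
  have hlog : 1 / (2 * (t : ℝ)) * Real.log n ≤ Real.log z := by
    have h1 : (n : ℝ) ^ (1 / (2 * (t : ℝ))) ≤ z := by
      have h2 : (n : ℝ) ^ (1 / (2 * (t : ℝ))) * (n : ℝ) ^ (1 / (2 * (t : ℝ))) = (n : ℝ) ^ (1 / (t : ℝ)) := by
        rw [← Real.rpow_add hn0]
        congr 1
        field_simp
        norm_num
      have h3 : (0 : ℝ) < (n : ℝ) ^ (1 / (2 * (t : ℝ))) := by positivity
      nlinarith
    have h2 := Real.log_le_log (by positivity) h1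
    rwa [Real.log_rpow hn0] at h2
  have h1 := hN n (((le_max_left _ _).trans (le_max_left _ _)).trans hn) z hz2 hzt hlog G hG hF
  refine h1.trans ?_
  apply Nat.cast_le.2
  apply card_le_card
  intro x hx
  unfold Pool.Agent.Q253.Line.good at hx
  rw [mem_filter] at hx
  obtain ⟨x1, x2, x3, x4⟩ := hx
  unfold GP
  rw [mem_filter]
  refine ⟨x1, x2, ?_, ?_⟩
  · have h2 : (z : ℝ) + 1 ≤ (((a - b) * (x : ℤ) + (b * n + c)).natAbs : ℝ) := by exact_mod_cast x3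
    linarith
  · intro p hp hpd
    by_contra hcon
    push Not at hcon
    have h2 : p ≤ z := by
      rw [hz]
      exact Nat.le_floor hcon
    exact x4 p (mem_pr.2 ⟨hp, h2⟩) hpd

/-- the count, the progressions in the dense subsets, and the progressions of constant type -/
theorem prime_types (κ : ℕ) : ∃ t : ℕ, 1 ≤ t ∧ ∀ (a b c : ℤ), a ≠ b → ∃ c0 : ℝ, 0 < c0 ∧
    (∃ N : ℕ, ∀ n : ℕ, N ≤ n → ∀ G : ℤ[X], G.natDegree ≤ κ → NFD ((C (a - b) * X + C (b * n + c)) * G) →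
      c0 * (n * W ((C (a - b) * X + C (b * n + c)) * G) n) ≤ ((GP t n (a - b) (b * n + c) G).card : ℝ)) ∧
    (∀ (L : ℕ) (δ : ℝ), 0 < δ → ∃ D N : ℕ, ∀ n : ℕ, N ≤ n → ∀ G : ℤ[X], G.natDegree ≤ κ →
      NFD ((C (a - b) * X + C (b * n + c)) * G) → ∀ S ⊆ GP t n (a - b) (b * n + c) G,
      δ * ((GP t n (a - b) (b * n + c) G).card : ℝ) ≤ S.card →
        ∃ x d : ℕ, 1 ≤ d ∧ (d : ℝ) ≤ Real.log n ^ D ∧ ∀ j < L, x + j * d ∈ S) ∧
    (∀ (L Kt : ℕ), ∃ D N : ℕ, ∀ n : ℕ, N ≤ n → ∀ G : ℤ[X], G.natDegree ≤ κ →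
      NFD ((C (a - b) * X + C (b * n + c)) * G) → ∀ (γ : Type) (K : Finset γ) (τ : ℕ → γ), K.card ≤ Kt → K.Nonempty →
        (∀ x ∈ GP t n (a - b) (b * n + c) G, τ x ∈ K) →
        ∃ k ∈ K, ∃ x d : ℕ, 1 ≤ d ∧ (d : ℝ) ≤ Real.log n ^ D ∧
          ∀ j < L, x + j * d ∈ GP t n (a - b) (b * n + c) G ∧ τ (x + j * d) = k) := by
  classical
  obtain ⟨t, ht, H⟩ := gp_count κ
  have ht0 : (0 : ℝ) < t := by exact_mod_cast ht
  have ht1 : (1 : ℝ) ≤ t := by exact_mod_cast ht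
  refine ⟨t, ht, fun a b c hab => ?_⟩
  obtain ⟨c0, hc0, N0, hN0⟩ := H a b c hab
  have hd : ∀ (L : ℕ) (δ : ℝ), 0 < δ → ∃ D N : ℕ, ∀ n : ℕ, N ≤ n → ∀ G : ℤ[X], G.natDegree ≤ κ →
      NFD ((C (a - b) * X + C (b * n + c)) * G) → ∀ S ⊆ GP t n (a - b) (b * n + c) G,
      δ * ((GP t n (a - b) (b * n + c) G).card : ℝ) ≤ S.card →
        ∃ x d : ℕ, 1 ≤ d ∧ (d : ℝ) ≤ Real.log n ^ D ∧ ∀ j < L, x + j * d ∈ S := by
    intro L δ hδ
    obtain ⟨D, N1, hD⟩ := ap_dense L (κ + 1) (1 / (t : ℝ)) (δ * c0) (by positivity) (by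
      rw [div_le_one ht0]
      exact ht1) (by positivity)
    refine ⟨D, max N0 N1, fun n hn G hG hF S hS hSc => ?_⟩
    have h1 := hN0 n ((le_max_left _ _).trans hn) G hG hF
    have hdeg : ((C (a - b) * X + C (b * n + c)) * G : ℤ[X]).natDegree ≤ κ + 1 := by
      refine natDegree_mul_le.trans ?_
      have : (C (a - b) * X + C (b * (n : ℤ) + c) : ℤ[X]).natDegree ≤ 1 := natDegree_linear_le
      omega
    have hsub : ∀ x ∈ S, x ∈ Ioo 0 n ∧ ((a - b) * (x : ℤ) + (b * n + c)).natAbs.Prime ∧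
        (n : ℝ) ^ (1 / (t : ℝ)) < (((a - b) * (x : ℤ) + (b * n + c)).natAbs : ℝ) ∧
        ∀ p : ℕ, p.Prime → (p : ℤ) ∣ G.eval (x : ℤ) → (n : ℝ) ^ (1 / (t : ℝ)) < p := by
      intro x hx
      have := hS hx
      unfold GP at this
      rw [mem_filter] at this
      exact this
    refine hD n ((le_max_right _ _).trans hn) (Rt ((C (a - b) * X + C (b * n + c)) * G)) (sys_Rt hF hdeg) 0 S ?_ ?_ ?_
    · intro x hx
      have := (hsub x hx).1
      rw [mem_Ioo] at this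
      rw [mem_Ioc]
      omega
    · intro x hx p hp hpn hmem
      obtain ⟨g1, g2, g3, g4⟩ := hsub x hx
      rw [mem_Rt hp.pos, eval_mul] at hmem
      rcases Int.Prime.dvd_mul' hp hmem with h2 | h2
      · have h3 : (C (a - b) * X + C (b * (n : ℤ) + c) : ℤ[X]).eval (x : ℤ) = (a - b) * (x : ℤ) + (b * n + c) := by
          simp
        rw [h3] at h2
        have h4 : p ∣ ((a - b) * (x : ℤ) + (b * n + c)).natAbs := Int.natCast_dvd.1 h2
        rw [Nat.prime_dvd_prime_iff_eq hp g2] at h4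
        rw [h4] at hpn
        linarith
      · exact absurd (g4 p hp h2) (not_lt.2 hpn)
    · rw [VV_Rt]
      calc δ * c0 * (n * W ((C (a - b) * X + C (b * n + c)) * G) n)
          = δ * (c0 * (n * W ((C (a - b) * X + C (b * n + c)) * G) n)) := by ring
        _ ≤ δ * ((GP t n (a - b) (b * n + c) G).card : ℝ) := mul_le_mul_of_nonneg_left h1 hδ.le
        _ ≤ _ := hSc
  refine ⟨c0, hc0, ⟨N0, hN0⟩, hd, ?_⟩
  intro L Kt
  obtain ⟨D, N, h3⟩ := hd L (1 / ((Kt : ℝ) + 1)) (by positivity)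
  refine ⟨D, N, fun n hn G hG hF γ K τ hKt hK hτ => ?_⟩
  obtain ⟨k, hk, hkc⟩ := pigeon (GP t n (a - b) (b * n + c) G) K τ hτ hK
  have hK0 : (0 : ℝ) < K.card := by exact_mod_cast hK.card_pos
  have hKr : (K.card : ℝ) ≤ Kt := by exact_mod_cast hKt
  obtain ⟨x, d, hd1, hd2, h4⟩ := h3 n hn G hG hF ((GP t n (a - b) (b * n + c) G).filter (fun n => τ n = k))
    (filter_subset _ _) (by
      refine le_trans ?_ hkc
      apply mul_le_mul_of_nonneg_right _ (Nat.cast_nonneg _)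
      apply one_div_le_one_div_of_le hK0
      linarith)
  exact ⟨k, hk, x, d, hd1, hd2, fun j hj => by
    have := h4 j hj
    rw [mem_filter] at this
    exact this⟩

end Pool.Agent.Q250.NP
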