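import Pool.Agent.Q250.NP.Window

/-!
# A fixed family: one prime linear form and several rough polynomials in the dyadic windows
-/

set_option autoImplicit false

namespace Pool.Agent.Q250.NP

open Finset Filter Polynomial
open Pool.Agent.Q253.Line (W NFD rt pr W_lower)

/-- the uniform version: the family `G` and its coefficients may depend on `n` -/
theorem rowU (m κ M : ℕ) : ∃ t : ℕ, 1 ≤ t ∧ ∀ (α β : ℤ), α ≠ 0 → ∃ c : ℝ, 0 < c ∧
    (∃ N : ℕ, ∀ n : ℕ, N ≤ n → ∀ G : Fin m → ℤ[X], (∏ i, G i).natDegree ≤ κ → NFD ((C α * X + C β) * ∏ i, G i) →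
      c / Real.log n ^ (κ + 1) ≤ W ((C α * X + C β) * ∏ i, G i) n ∧
      c * (n * W ((C α * X + C β) * ∏ i, G i) n) ≤ ((GW t n α β (∏ i, G i)).card : ℝ)) ∧
    (∀ (L : ℕ) (δ : ℝ), 0 < δ → ∃ D N : ℕ, ∀ n : ℕ, N ≤ n → ∀ G : Fin m → ℤ[X], (∏ i, G i).natDegree ≤ κ →
      NFD ((C α * X + C β) * ∏ i, G i) → ∀ S ⊆ GW t n α β (∏ i, G i), δ * ((GW t n α β (∏ i, G i)).card : ℝ) ≤ S.card →
        ∃ x d : ℕ, 1 ≤ d ∧ (d : ℝ) ≤ Real.log n ^ D ∧ ∀ j < L, x + j * d ∈ S) ∧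
    (∀ (L q : ℕ), 1 ≤ q → ∃ D N : ℕ, ∀ n : ℕ, N ≤ n → ∀ G : Fin m → ℤ[X], (∏ i, G i).natDegree ≤ κ →
      NFD ((C α * X + C β) * ∏ i, G i) →
      (∀ y ∈ GW t n α β (∏ i, G i), ∀ i, 2 ≤ ((G i).eval (y : ℤ)).natAbs ∧ ((G i).eval (y : ℤ)).natAbs ≤ n ^ M) →
      ∀ col : ℕ → Fin q, ∃ (s : Fin m → ℕ) (b : Fin q) (x d : ℕ), (∀ i, 1 ≤ s i ∧ s i ≤ t * M) ∧
        1 ≤ d ∧ (d : ℝ) ≤ Real.log n ^ D ∧ ∀ j < L, x + j * d ∈ GW t n α β (∏ i, G i) ∧ col (x + j * d) = b ∧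
          ∀ i, Om ((G i).eval ((x + j * d : ℕ) : ℤ)) = s i) := by
  classical
  obtain ⟨t, ht, H⟩ := window κ
  refine ⟨t, ht, fun α β hα => ?_⟩
  obtain ⟨c0, hc0, ⟨N0, h1⟩, h2, h3⟩ := H α β hα
  obtain ⟨c1, hc1, hW⟩ := W_lower (κ + 1)
  refine ⟨min c0 c1, lt_min hc0 hc1, ⟨max N0 3, fun n hn G hG hF => ?_⟩, ?_, ?_⟩
  · have hn3 : 3 ≤ n := (le_max_right _ _).trans hn
    have hdeg : ((C α * X + C β) * ∏ i, G i : ℤ[X]).natDegree ≤ κ + 1 := by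
      refine natDegree_mul_le.trans ?_
      have : (C α * X + C β : ℤ[X]).natDegree ≤ 1 := natDegree_linear_le
      omega
    have h4 := hW n hn3 _ hF hdeg
    have hnr : (3 : ℝ) ≤ n := by exact_mod_cast hn3
    have hl : 0 < Real.log n := Real.log_pos (by linarith)
    refine ⟨le_trans (div_le_div_of_nonneg_right (min_le_right _ _) (by positivity)) h4, ?_⟩
    refine le_trans ?_ (h1 n ((le_max_left _ _).trans hn) _ hG hF)
    apply mul_le_mul_of_nonneg_right (min_le_left _ _)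
    exact mul_nonneg (Nat.cast_nonneg _) (le_trans (by positivity) h4)
  · intro L δ hδ
    obtain ⟨D, N, h4⟩ := h2 L δ hδ
    exact ⟨D, N, fun n hn G hG hF S hS hSc => h4 n hn _ hG hF S hS hSc⟩
  · intro L q hq
    obtain ⟨K, hK⟩ : ∃ K : Finset ((Fin m → ℕ) × Fin q), K = (Fintype.piFinset (fun _ : Fin m => Icc 0 (t * M))) ×ˢ univ :=
      ⟨_, rfl⟩
    have hKne : K.Nonempty := by
      rw [hK]
      refine Finset.Nonempty.product ?_ ⟨⟨0, hq⟩, mem_univ _⟩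
      exact ⟨fun _ => 0, Fintype.mem_piFinset.2 fun _ => mem_Icc.2 ⟨le_rfl, Nat.zero_le _⟩⟩
    obtain ⟨D, N, h4⟩ := h3 (L + 1) K.card
    refine ⟨D, max N 2, fun n hn G hG hF hsize col => ?_⟩
    have hn2 : 2 ≤ n := (le_max_right _ _).trans hn
    have hlen : ∀ y ∈ GW t n α β (∏ i, G i), ∀ i, 1 ≤ Om ((G i).eval (y : ℤ)) ∧ Om ((G i).eval (y : ℤ)) ≤ t * M := by
      intro y hy i
      obtain ⟨g1, g2⟩ := hsize y hy i
      apply Om_bounds hn2 ht g1 g2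
      intro p hp hpd
      apply (mem_GW.1 hy).2.2.2 p hp
      rw [eval_prod]
      exact hpd.trans (dvd_prod_of_mem _ (mem_univ i))
    obtain ⟨k, hk, x, d, hd1, hd2, h5⟩ := h4 n ((le_max_left _ _).trans hn) _ hG hF ((Fin m → ℕ) × Fin q) K
      (fun y => (fun i => Om ((G i).eval (y : ℤ)), col y)) le_rfl hKne (by
        intro y hy
        rw [hK, mem_product, Fintype.mem_piFinset]
        exact ⟨fun i => mem_Icc.2 ⟨Nat.zero_le _, (hlen y hy i).2⟩, mem_univ _⟩)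
    have h0 := h5 0 (by omega)
    refine ⟨k.1, k.2, x, d, fun i => ?_, hd1, hd2, fun j hj => ?_⟩
    · rw [zero_mul, add_zero] at h0
      rw [← h0.2]
      exact hlen x h0.1 i
    · obtain ⟨h6, h7⟩ := h5 j (by omega)
      refine ⟨h6, by rw [← h7], fun i => ?_⟩
      rw [← h7]

end Pool.Agent.Q250.NP
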