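import Pool.Agent.Q250.NP.Both

/-!
# The dyadic windows `(n, 2 n)`
-/

set_option autoImplicit false

namespace Pool.Agent.Q250.NP

open Finset Filter Polynomial
open Pool.Agent.Q253.Line (W NFD rt pr dvd_eval_emod W_lower)

theorem rt_shift {F F' : ℤ[X]} {s : ℕ} (h : ∀ x : ℤ, F'.eval x = F.eval (x + s)) {p : ℕ} (hp : 0 < p) : rt F' p = rt F p := by
  unfold rt
  have key : ∀ {P Q : ℤ[X]} {w : ℕ}, (∀ x : ℤ, P.eval x = Q.eval (x + w)) →
      ((range p).filter (fun x : ℕ => (p : ℤ) ∣ P.eval (x : ℤ))).card ≤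
        ((range p).filter (fun x : ℕ => (p : ℤ) ∣ Q.eval (x : ℤ))).card := by
    intro P Q w hPQ
    apply card_le_card_of_injOn (fun x => (x + w) % p)
    · intro x hx
      have hx' := Finset.mem_coe.1 hx
      rw [mem_filter, mem_range] at hx'
      rw [Finset.mem_coe, mem_filter, mem_range]
      refine ⟨Nat.mod_lt _ hp, ?_⟩
      have h1 := hx'.2
      rw [hPQ, dvd_eval_emod] at h1
      push_cast
      exact h1
    · intro x hx y hy hxy
      have hx' := Finset.mem_coe.1 hx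
      have hy' := Finset.mem_coe.1 hy
      rw [mem_filter, mem_range] at hx' hy'
      have h1 : x ≡ y [MOD p] := Nat.ModEq.add_right_cancel' w hxy
      exact h1.eq_of_lt_of_lt hx'.1 hy'.1
  apply le_antisymm (key h)
  -- the inverse shift: `w` with `w + s ≡ 0`
  obtain ⟨w, hw⟩ : ∃ w : ℕ, p ∣ w + s := ⟨s * (p - 1), by
    have : s * (p - 1) + s = s * p := by
      obtain ⟨q, rfl⟩ : ∃ q, p = q + 1 := ⟨p - 1, by omega⟩
      rw [Nat.add_sub_cancel]
      ring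
    rw [this]
    exact Dvd.intro_left s rfl⟩
  -- compare with the polynomial `F'` at `x + w`
  apply card_le_card_of_injOn (fun x => (x + w) % p)
  · intro x hx
    have hx' := Finset.mem_coe.1 hx
    rw [mem_filter, mem_range] at hx'
    rw [Finset.mem_coe, mem_filter, mem_range]
    refine ⟨Nat.mod_lt _ hp, ?_⟩
    have h1 : (p : ℤ) ∣ F'.eval ((x : ℤ) + w) := by
      rw [h, dvd_eval_emod]
      have h2 : ((x : ℤ) + w + s) % p = (x : ℤ) % p := by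
        have h3 : (p : ℤ) ∣ (w : ℤ) + s := by exact_mod_cast hw
        rw [add_assoc, Int.add_emod, Int.emod_eq_zero_of_dvd h3]
        simp
      rw [h2, ← dvd_eval_emod]
      exact hx'.2
    rw [dvd_eval_emod] at h1
    push_cast
    exact h1
  · intro x hx y hy hxy
    have hx' := Finset.mem_coe.1 hx
    have hy' := Finset.mem_coe.1 hy
    rw [mem_filter, mem_range] at hx' hy'
    have h1 : x ≡ y [MOD p] := Nat.ModEq.add_right_cancel' w hxy
    exact h1.eq_of_lt_of_lt hx'.1 hy'.1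

theorem W_shift {F F' : ℤ[X]} {s : ℕ} (h : ∀ x : ℤ, F'.eval x = F.eval (x + s)) (n : ℕ) : W F' n = W F n := by
  unfold W
  apply prod_congr rfl
  intro p hp
  rw [rt_shift h (Pool.Agent.Q253.Line.mem_pr.1 hp).1.pos]

theorem NFD_shift {F F' : ℤ[X]} {s : ℕ} (h : ∀ x : ℤ, F'.eval x = F.eval (x + s)) (hF : NFD F) : NFD F' := by
  intro p hp
  obtain ⟨x, hx⟩ := hF p hp
  refine ⟨x - s, ?_⟩
  rw [h, sub_add_cancel]
  exact hx

open Classical in
/-- the `n < y < 2 n` for which `|α y + β|` is a prime `> n ^ (1/t)` and all prime factors of `G(y)` are `> n ^ (1/t)` -/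
noncomputable def GW (t n : ℕ) (α β : ℤ) (G : ℤ[X]) : Finset ℕ :=
  (Ioo n (2 * n)).filter (fun y : ℕ => (α * (y : ℤ) + β).natAbs.Prime ∧ (n : ℝ) ^ (1 / (t : ℝ)) < ((α * (y : ℤ) + β).natAbs : ℝ) ∧
    ∀ p : ℕ, p.Prime → (p : ℤ) ∣ G.eval (y : ℤ) → (n : ℝ) ^ (1 / (t : ℝ)) < p)

theorem mem_GW {t n : ℕ} {α β : ℤ} {G : ℤ[X]} {y : ℕ} : y ∈ GW t n α β G ↔ (n < y ∧ y < 2 * n) ∧
    (α * (y : ℤ) + β).natAbs.Prime ∧ (n : ℝ) ^ (1 / (t : ℝ)) < ((α * (y : ℤ) + β).natAbs : ℝ) ∧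
    ∀ p : ℕ, p.Prime → (p : ℤ) ∣ G.eval (y : ℤ) → (n : ℝ) ^ (1 / (t : ℝ)) < p := by
  classical
  unfold GW
  rw [mem_filter, mem_Ioo]

theorem mem_GP_iff {t n : ℕ} {α β : ℤ} {G : ℤ[X]} {x : ℕ} :
    x ∈ GP t n (2 * α - α) (α * n + β) (G.comp (X + C (n : ℤ))) ↔ 0 < x ∧ x + n ∈ GW t n α β G := by
  classical
  rw [mem_GW]
  unfold GP
  rw [mem_filter, mem_Ioo]
  have e1 : (2 * α - α) * (x : ℤ) + (α * n + β) = α * ((x + n : ℕ) : ℤ) + β := by push_cast; ring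
  have e2 : (G.comp (X + C (n : ℤ))).eval (x : ℤ) = G.eval ((x + n : ℕ) : ℤ) := by
    rw [eval_comp]
    simp
  rw [e1, e2]
  constructor
  · rintro ⟨⟨h1, h2⟩, h3⟩
    exact ⟨h1, ⟨by omega, by omega⟩, h3⟩
  · rintro ⟨h0, ⟨h1, h2⟩, h3⟩
    exact ⟨⟨h0, by omega⟩, h3⟩

/-- the count, the progressions in the dense subsets, and the progressions of constant type, in `(n, 2 n)` -/
theorem window (κ : ℕ) : ∃ t : ℕ, 1 ≤ t ∧ ∀ (α β : ℤ), α ≠ 0 → ∃ c0 : ℝ, 0 < c0 ∧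
    (∃ N : ℕ, ∀ n : ℕ, N ≤ n → ∀ G : ℤ[X], G.natDegree ≤ κ → NFD ((C α * X + C β) * G) →
      c0 * (n * W ((C α * X + C β) * G) n) ≤ ((GW t n α β G).card : ℝ)) ∧
    (∀ (L : ℕ) (δ : ℝ), 0 < δ → ∃ D N : ℕ, ∀ n : ℕ, N ≤ n → ∀ G : ℤ[X], G.natDegree ≤ κ →
      NFD ((C α * X + C β) * G) → ∀ S ⊆ GW t n α β G, δ * ((GW t n α β G).card : ℝ) ≤ S.card →
        ∃ x d : ℕ, 1 ≤ d ∧ (d : ℝ) ≤ Real.log n ^ D ∧ ∀ j < L, x + j * d ∈ S) ∧
    (∀ (L Kt : ℕ), ∃ D N : ℕ, ∀ n : ℕ, N ≤ n → ∀ G : ℤ[X], G.natDegree ≤ κ →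
      NFD ((C α * X + C β) * G) → ∀ (γ : Type) (K : Finset γ) (τ : ℕ → γ), K.card ≤ Kt → K.Nonempty →
        (∀ x ∈ GW t n α β G, τ x ∈ K) →
        ∃ k ∈ K, ∃ x d : ℕ, 1 ≤ d ∧ (d : ℝ) ≤ Real.log n ^ D ∧ ∀ j < L, x + j * d ∈ GW t n α β G ∧ τ (x + j * d) = k) := by
  classical
  obtain ⟨t, ht, H⟩ := prime_types κ
  refine ⟨t, ht, fun α β hα => ?_⟩
  obtain ⟨c0, hc0, ⟨N0, h1⟩, h2, h3⟩ := H (2 * α) α β (by omega)
  have hdeg : ∀ (n : ℕ) (G : ℤ[X]), G.natDegree ≤ κ → (G.comp (X + C (n : ℤ))).natDegree ≤ κ := by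
    intro n G hG
    rw [natDegree_comp, natDegree_X_add_C, mul_one]
    exact hG
  have hev : ∀ (n : ℕ) (G : ℤ[X]) (x : ℤ),
      ((C (2 * α - α) * X + C (α * n + β)) * G.comp (X + C (n : ℤ))).eval x = ((C α * X + C β) * G).eval (x + n) := by
    intro n G x
    rw [eval_mul, eval_mul, eval_comp]
    simp only [eval_add, eval_mul, eval_C, eval_X]
    ring
  -- the set in the window as an image
  have himg : ∀ (n : ℕ) (G : ℤ[X]), (GW t n α β G).card = (GP t n (2 * α - α) (α * n + β) (G.comp (X + C (n : ℤ)))).card := by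
    intro n G
    rw [← card_image_of_injective (GP t n (2 * α - α) (α * n + β) (G.comp (X + C (n : ℤ)))) (add_left_injective n)]
    congr 1
    ext y
    rw [mem_image]
    constructor
    · intro hy
      have h4 := (mem_GW.1 hy).1
      refine ⟨y - n, mem_GP_iff.2 ⟨by omega, ?_⟩, by omega⟩
      rw [Nat.sub_add_cancel h4.1.le]
      exact hy
    · rintro ⟨x, hx, rfl⟩
      exact (mem_GP_iff.1 hx).2
  refine ⟨c0, hc0, ⟨N0, fun n hn G hG hF => ?_⟩, ?_, ?_⟩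
  · have h4 := h1 n hn (G.comp (X + C (n : ℤ))) (hdeg n G hG) (NFD_shift (hev n G) hF)
    rw [W_shift (hev n G)] at h4
    rw [himg]
    exact h4
  · intro L δ hδ
    obtain ⟨D, N, h4⟩ := h2 L δ hδ
    refine ⟨D, N, fun n hn G hG hF S hS hSc => ?_⟩
    have hSn : ∀ y ∈ S, n < y := fun y hy => (mem_GW.1 (hS hy)).1.1
    obtain ⟨x, d, hd1, hd2, h5⟩ := h4 n hn (G.comp (X + C (n : ℤ))) (hdeg n G hG) (NFD_shift (hev n G) hF)
      (S.image (fun y => y - n)) (by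
        intro x hx
        rw [mem_image] at hx
        obtain ⟨y, hy, rfl⟩ := hx
        have h6 := hSn y hy
        refine mem_GP_iff.2 ⟨by omega, ?_⟩
        rw [Nat.sub_add_cancel h6.le]
        exact hS hy) (by
        rw [card_image_of_injOn, ← himg]
        · exact hSc
        · intro y hy z hz hyz
          have h6 := hSn y (Finset.mem_coe.1 hy)
          have h7 := hSn z (Finset.mem_coe.1 hz)
          simp only at hyz
          omega)
    refine ⟨x + n, d, hd1, hd2, fun j hj => ?_⟩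
    have h6 := h5 j hj
    rw [mem_image] at h6
    obtain ⟨y, hy, hyx⟩ := h6
    have h7 := hSn y hy
    have h8 : x + n + j * d = y := by omega
    rw [h8]
    exact hy
  · intro L Kt
    obtain ⟨D, N, h4⟩ := h3 L Kt
    refine ⟨D, N, fun n hn G hG hF γ K τ hKt hK hτ => ?_⟩
    obtain ⟨k, hk, x, d, hd1, hd2, h5⟩ := h4 n hn (G.comp (X + C (n : ℤ))) (hdeg n G hG) (NFD_shift (hev n G) hF) γ K
      (fun x => τ (x + n)) hKt hK (fun x hx => hτ _ (mem_GP_iff.1 hx).2)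
    refine ⟨k, hk, x + n, d, hd1, hd2, fun j hj => ?_⟩
    obtain ⟨h6, h7⟩ := h5 j hj
    have h8 := (mem_GP_iff.1 h6).2
    rw [show x + n + j * d = x + j * d + n by ring]
    exact ⟨h8, h7⟩

end Pool.Agent.Q250.NP
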